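import Pool.Agent.W626.AH.Stm

/-!
# Acylindrically hyperbolic marked groups: the projection is closed
-/

set_option autoImplicit false

namespace Pool.Agent.W503.AH.Pro

open Pool.Agent.H67R3.RHDefs Pool.Agent.W626.AH

theorem box_compact (n : ℕ) : IsCompact (box n) := by
  have h : box n = Set.univ.pi (fun w : FreeGroup (Fin n) => Set.Icc (0 : ℝ) (w.norm : ℝ)) := by
    ext ℓ
    exact ⟨fun h w _ => h w, fun h w => h w (Set.mem_univ w)⟩
  rw [h]
  exact isCompact_univ_pi fun w => isCompact_Icc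

theorem main : S_clo → S_pro := by
  intro h n R M q B g
  have : CompactSpace (box n) := isCompact_iff_compactSpace.1 (box_compact n)
  have h1 : IsClosed {z : Marked n × box n | FCond z.1.1 z.2.1 R M g q B} := by
    have hc : Continuous (fun z : Marked n × box n => (z.1, (z.2 : FreeGroup (Fin n) → ℝ))) :=
      continuous_fst.prodMk (continuous_subtype_val.comp continuous_snd)
    have h2 := (h n R M q B g).preimage hc
    refine (congrArg IsClosed ?_).mpr h2
    ext z
    exact ⟨fun hz => ⟨z.2.2, hz⟩, fun hz => hz.2⟩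
  have h3 := isClosedMap_fst_of_compactSpace (X := Marked n) (Y := box n) _ h1
  refine (congrArg IsClosed ?_).mpr h3
  ext N
  constructor
  · rintro ⟨ℓ, hl, hF⟩
    exact ⟨(N, ⟨ℓ, hl⟩), hF, rfl⟩
  · rintro ⟨⟨N', ℓ⟩, hF, rfl⟩
    exact ⟨ℓ.1, ℓ.2, hF⟩

end Pool.Agent.W503.AH.Pro
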